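import Pool.Agent.V11120.PMd

set_option autoImplicit false

/-!
# Shortest cycle covers and expanding vertices into triangles: a counterexample

Replace every vertex of the Petersen graph `P` by a copy of `P` minus a vertex. The resulting
3-edge-connected cubic graph `G` with 90 vertices and 135 edges has a cycle cover of length
`180 = 4/3 |E|`: double cover the edges of the outer `P` by circuits and complete it inside the
pieces. But it is not the union of four perfect matchings: these would induce on each piece labels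
`{i,a}, {i,b}, {i,c}` of the three outer edges (`P` itself is not the union of four perfect
matchings) and so a 3-edge-colouring of the outer `P`.
-/

namespace Pool.Agent.Results.MP_961c17_co.NestedPetersen

open Pool.Agent.V11120.PMx

theorem arith (n s : ℕ) (t : ℕ∞) (h1 : 3 * s ≤ 4 * n) (h2 : 1 ≤ t) :
    3 * (s : ℕ∞) ≠ 4 * (n : ℕ∞) + 3 * t := by
  intro h
  have h3 : 3 * (s : ℕ∞) ≤ 4 * (n : ℕ∞) := by exact_mod_cast h1
  have h4 : 4 * (n : ℕ∞) + 1 ≤ 4 * (n : ℕ∞) + 3 * t := by
    gcongr
    calc (1 : ℕ∞) ≤ t := h2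
      _ ≤ 3 * t := le_mul_of_one_le_left zero_le (by norm_num)
  rw [← h] at h4
  have h5 := h4.trans h3
  have h6 : ((4 * n + 1 : ℕ) : ℕ∞) ≤ ((4 * n : ℕ) : ℕ∞) := by exact_mod_cast h5
  have h7 := Nat.cast_le.1 h6
  omega

/-- **Q1 is false.** (1) There is a 3-edge-connected cubic graph `G` with 90 vertices such that
`scc(G) ≤ 4/3 |E(G)|` and `T(G) ≥ 1`. (2) So the equality `scc(G) = 4/3 |E(G)| + T(G)` does not hold
for all 3-edge-connected cubic graphs. -/
theorem result :
    (∃ (V E : Type) (_ : Fintype V) (_ : Fintype E) (J : V → E → Prop),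
      Fintype.card V = 90 ∧ IsGraph J ∧ Cubic J ∧ ThreeEdgeConnected J ∧
      3 * scc J ≤ 4 * Fintype.card E ∧ 1 ≤ T J) ∧
    ¬ ∀ (V E : Type) [Fintype V] [Fintype E] (J : V → E → Prop),
      IsGraph J → Cubic J → ThreeEdgeConnected J →
      3 * (scc J : ℕ∞) = 4 * (Fintype.card E : ℕ∞) + 3 * T J := by
  have hscc : 3 * scc I ≤ 4 * Fintype.card (Fin 135) := by
    rw [Fintype.card_fin]
    have := scc_le
    omega
  have hT : 1 ≤ T I := one_le_T I notCov
  exact ⟨⟨Fin 90, Fin 135, Fin.fintype 90, Fin.fintype 135, I, Fintype.card_fin 90, isGraph,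
    cubic, threeConn, hscc, hT⟩, fun hall =>
    arith (Fintype.card (Fin 135)) (scc I) (T I) hscc hT
      (hall (Fin 90) (Fin 135) I isGraph cubic threeConn)⟩

end Pool.Agent.Results.MP_961c17_co.NestedPetersen
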